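import Pool.Agent.Lib.MP_abd955_pr.Asm
import Pool.Agent.Lib.MP_abd955_pr.MeasC
import Pool.Agent.Lib.MP_abd955_pr.MeasFG
import Pool.Agent.Lib.MP_abd955_pr.XF

namespace Pool.Agent.Results.MP_abd955_pr.Singular

open Pool.Agent.Lib.MP_abd955_pr MeasureTheory ProbabilityTheory

theorem result : ∃ (Q H : Measure Om) (Hp : ℕ → Measure Om),
    Lim (fun n => uniformOn (sphere n)) Q ∧
    (∀ p, Lim (fun n => uniformOn (disc n p)) (Hp p)) ∧ Lim Hp H ∧
    (∀ᵐ ω ∂H, Function.Injective (bd ω)) ∧ Measurable fold ∧ Measurable glue ∧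
    H.map fold ⟂ₘ Q ∧ H.map fold ⟂ₘ (Measure.pi fun _ : Bool => H).map glue := by
  obtain ⟨Q, H, Hp, a, b, c⟩ := limits_exist
  exact ⟨Q, H, Hp, a, b, c, measure_mono_null (fun _ h e => h fun _ _ => bd_inj e) (sub_null b c),
    measurable_fold, measurable_glue,
    singular_of_finite hfin_holds Q H Hp a b c⟩

end Pool.Agent.Results.MP_abd955_pr.Singular
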